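import Pool.Agent.P7.CORE
import Pool.Agent.P7.CASEA
import Pool.Agent.P7.CASEB
import Pool.Agent.P7.ML
import Pool.Agent.P7.LI
import Pool.Agent.P7.COORD
import Pool.Agent.P7.CONJ
import Pool.Agent.P7.FOUR
import Pool.Agent.P7.CONG
import Pool.Agent.P7.LAM
import Pool.Agent.P7.PLACES
import Pool.Agent.P7.BRIDGE
import Pool.Agent.P7.SWAP
import Pool.Agent.P7.LA
import Pool.Agent.P7.LB
import Pool.Agent.P7.LC
import Pool.Agent.P7.LD
import Pool.Agent.P7.LE
import Pool.Agent.P7.BA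
import Pool.Agent.P7.BB
import Pool.Agent.P7.BC
import Pool.Agent.P7.BD
import Pool.Agent.P7.BE
import Pool.Agent.P7.F0
import Pool.Agent.P7.F1
import Pool.Agent.P7.F2
import Pool.Agent.P7.F3
import Pool.Agent.P7.F4
import Pool.Agent.P7.F5
import Pool.Agent.P7.FORM1
import Pool.Agent.P7.FORM2
import Pool.Agent.P7.FORM3
import Pool.Agent.P7.RR
import Pool.Agent.P7.BT
import Pool.Agent.P7.MBND
import Pool.Agent.P7.MLIM
import Pool.Agent.P7.HNF
import Pool.Agent.P7.RED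
import Pool.Agent.P7.DET
import Pool.Agent.P7.TRIPLE

/-!
# Pythagoras number seven for almost all biquadratic fields

All but finitely many totally real biquadratic fields `K` that contain none of `√2`, `√3`, `√5` satisfy
`7 ≤ P(𝓞 K)`.  (The upper bound `P(𝓞 K) ≤ 7` is a known theorem, so `P(𝓞 K) = 7` for these fields.)
-/

open scoped NumberField

namespace Pool.Agent.Results.MP_a901ae_nt.AlmostAllSeven

open P7

theorem result :
    {K : IntermediateField ℚ ℝ | P7.IsBiquadratic K ∧ √(2 : ℝ) ∉ K ∧ √(3 : ℝ) ∉ K ∧ √(5 : ℝ) ∉ K ∧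
      ¬ 7 ≤ P7.pythagorasNumber (𝓞 K)}.Finite := by
  have hcong := tCONG (tCONJ tLI)
  have hBA : T_BA := tBA tLAM (tLA hcong)
  have hBB : T_BB := tBB tLAM (tLB hcong)
  have hBC : T_BC := tBC tLAM (tLC hcong)
  have hBD : T_BD := tBD tLAM (tLD hcong)
  have hBE : T_BE := tBE tLAM (tLE hcong)
  have hCB : T_CASEB := tCASEB (pBT pRR) hBA hBB hBC hBD hBE (tFORM1 pF1 tF2) (tFORM2 tF3) (tFORM3 tF4 tF5) tSWAP
  have hCA : T_CASEA := tCASEA (tML tF0 tMBND tMLIM) tHNF tRED tDET tLAM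
  exact tFINAL (tCORE hCA hCB) (tBRIDGE tCOORD (tFOUR (tCONJ tLI)) (tPLACES tLI)) tTRIPLE

end Pool.Agent.Results.MP_a901ae_nt.AlmostAllSeven
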