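import Pool.Agent.ST6.Lower

set_option autoImplicit false

/-!
# The Pythagoras number of the biquadratic fields that contain `√3`

`P(𝓞 K) ≤ 6` for every totally real biquadratic field `K` that contains `√3`, with equality for
all but finitely many of them.
-/

open scoped NumberField

namespace Pool.Agent.Results.MP_a901ae_nt.FieldsWithSqrtThree

theorem result :
    (∀ K : IntermediateField ℚ ℝ, P7.IsBiquadratic K → √(3 : ℝ) ∈ K →
      P7.pythagorasNumber (𝓞 K) ≤ 6) ∧
    {K : IntermediateField ℚ ℝ | P7.IsBiquadratic K ∧ √(3 : ℝ) ∈ K ∧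
      P7.pythagorasNumber (𝓞 K) ≠ 6}.Finite :=
  ⟨ST6.m_OK, ST6.finite6⟩

end Pool.Agent.Results.MP_a901ae_nt.FieldsWithSqrtThree
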