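import Pool.Agent.ST6.Lower

set_option autoImplicit false

/-!
# Sums of six squares of binary linear forms over `ℤ[√3]`

`g_{ℤ[√3]}(2) = 6`, the conjecture of Krásenský and Yatsyna.
-/

namespace Pool.Agent.Results.MP_a901ae_nt.SixSquares

open ST6

theorem mono {n : ℕ} {a b c : R} (h : SS n a b c) : SS (n + 1) a b c := by
  obtain ⟨x, y, h1, h2, h3⟩ := h
  refine ⟨Fin.cons 0 x, Fin.cons 0 y, ?_, ?_, ?_⟩ <;> rw [Fin.sum_univ_succ] <;> simp [h1, h2, h3]

theorem mono' {n m : ℕ} {a b c : R} (h : SS n a b c) (hnm : n ≤ m) : SS m a b c := by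
  induction m, hnm using Nat.le_induction with
  | base => exact h
  | succ k _ ih => exact mono ih

theorem result :
    IsLeast {g : ℕ | ∀ (n : ℕ) (a b c : R), SS n a b c → SS g a b c} 6 := by
  refine ⟨m_SIX, fun g hg => ?_⟩
  obtain ⟨h6, h5⟩ := p_LOW
  by_contra hlt
  exact h5 (mono' (hg 6 _ _ _ h6) (by omega))

end Pool.Agent.Results.MP_a901ae_nt.SixSquares
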